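import Pool.Agent.helper12.OB.SpecA

set_option autoImplicit false

namespace Pool.Agent.OB

open Pool.Agent.helper58.DC Pool.Agent.DI Pool.Agent.GR

section

variable {G : Type} [Group G]

theorem WCJ_mem (α : MulAut G) (C : Finset (Subgroup G)) (P' : Subgroup G) :
    P' ∈ chainMap α C ↔ ∃ P ∈ C, P.map α.toMonoidHom = P' := by
  classical
  unfold chainMap
  exact Finset.mem_image

theorem WCJ_ch (p : ℕ) (α : MulAut G) (C : Finset (Subgroup G)) (h : PCh p ⊤ ⊥ C) :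
    PCh p ⊤ ⊥ (chainMap α C) := by
  refine ⟨?_, ?_, ?_, ?_, ?_⟩
  · intro P' hP' Q' hQ' _
    obtain ⟨P, hP, rfl⟩ := (WCJ_mem α C P').mp hP'
    obtain ⟨Q, hQ, rfl⟩ := (WCJ_mem α C Q').mp hQ'
    rcases h.chain.total hP hQ with h1 | h1
    · exact Or.inl (Subgroup.map_mono h1)
    · exact Or.inr (Subgroup.map_mono h1)
  · exact (WCJ_mem α C ⊥).mpr ⟨⊥, h.mem, Subgroup.map_bot _⟩
  · intro Q _
    exact bot_le
  · intro Q _
    exact le_top
  · intro Q' hQ'
    obtain ⟨Q, hQ, rfl⟩ := (WCJ_mem α C Q').mp hQ'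
    exact (h.pg Q hQ).map _

end

theorem WCJ_conj (hNM : NM_stmt) (G : Type) [Group G] [Finite G] (p : ℕ) (α : MulAut G) (K : Subgroup G) :
    W p (K.map α.toMonoidHom) = W p K := by
  unfold W
  symm
  refine finsum_mem_eq_of_bijOn (chainMap α) ⟨?_, ?_, ?_⟩ ?_
  · intro C hC
    refine ⟨WCJ_ch p α C hC.1, ?_⟩
    rw [(hNM G α C).2.2.2.1]
    exact Subgroup.map_mono hC.2
  · intro C _ D _ hCD
    have h1 : ∀ E : Finset (Subgroup G), chainMap α⁻¹ (chainMap α E) = E := by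
      intro E
      rw [← (hNM G α⁻¹ E).2.2.2.2.1 α, inv_mul_cancel]
      exact (hNM G α⁻¹ E).2.2.2.2.2.1
    have h2 : chainMap α C = chainMap α D := hCD
    rw [← h1 C, h2, h1 D]
  · intro D hD
    have h1 : chainMap α (chainMap α⁻¹ D) = D := by
      rw [← (hNM G α D).2.2.2.2.1 α⁻¹, mul_inv_cancel]
      exact (hNM G α D).2.2.2.2.2.1
    refine ⟨chainMap α⁻¹ D, ⟨WCJ_ch p α⁻¹ D hD.1, ?_⟩, h1⟩
    have h2 : nrm D = (nrm (chainMap α⁻¹ D)).map α.toMonoidHom := by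
      rw [← (hNM G α (chainMap α⁻¹ D)).2.2.2.1, h1]
    have h3 : K.map α.toMonoidHom ≤ (nrm (chainMap α⁻¹ D)).map α.toMonoidHom := by
      rw [← h2]
      exact hD.2
    exact (Subgroup.map_le_map_iff_of_injective α.injective).mp h3
  · intro C _
    rw [(hNM G α C).2.2.1]

theorem WCJ (hNM : NM_stmt) (hCSE : Pool.Agent.WC.CSE_stmt) : WCJ_stmt := by
  intro G _ _ p _
  have h2 : ∀ K Y : Subgroup G, IsPGroup p Y → Y ≤ K → K ≤ nz Y → Y ≠ ⊥ → W p K = 0 := by
    intro K Y hY hYK hKY hne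
    exact hCSE G p ⊤ K Y hY hYK le_top hKY hne
  refine ⟨fun g K => WCJ_conj hNM G p (MulAut.conj g) K, h2, ?_⟩
  intro K y hyK hcen hy hne
  refine h2 K (Subgroup.zpowers y) ?_ ?_ ?_ ?_
  · obtain ⟨k, hk⟩ := hy
    intro x
    obtain ⟨n, hn⟩ := Subgroup.mem_zpowers_iff.mp x.2
    refine ⟨k, ?_⟩
    apply Subtype.ext
    show (x : G) ^ p ^ k = 1
    rw [← hn, ← zpow_natCast, ← zpow_mul, mul_comm, zpow_mul, zpow_natCast, hk, one_zpow]
  · exact (Subgroup.zpowers_le).mpr hyK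
  · intro k hk
    rw [Subgroup.mem_normalizer_iff]
    have hc : ∀ n : ℤ, k * y ^ n * k⁻¹ = y ^ n := by
      intro n
      have h3 : Commute k (y ^ n) := Commute.zpow_right (hcen k hk) n
      rw [h3.eq, mul_assoc, mul_inv_cancel, mul_one]
    intro h
    constructor
    · intro hh
      obtain ⟨n, hn⟩ := Subgroup.mem_zpowers_iff.mp hh
      rw [← hn, hc n]
      exact Subgroup.zpow_mem_zpowers y n
    · intro hh
      obtain ⟨n, hn⟩ := Subgroup.mem_zpowers_iff.mp hh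
      have h4 : h = k⁻¹ * (y ^ n) * k := by
        rw [hn]
        group
      have h5 : Commute k (y ^ n) := Commute.zpow_right (hcen k hk) n
      have h6 : h = y ^ n := by
        rw [h4, mul_assoc, ← h5.eq, ← mul_assoc, inv_mul_cancel, one_mul]
      rw [h6]
      exact Subgroup.zpow_mem_zpowers y n
  · exact (Subgroup.zpowers_ne_bot).mpr hne

end Pool.Agent.OB
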